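import Mathlib

/-!
# Infinite paths or large independent sets in graphs on an ordinal

The statement `P(α)` of Erdős, Hajnal and Milner, and Jensen's diamond principle.
-/

set_option autoImplicit false

open Cardinal Ordinal Set

namespace Pool.Agent.W910.IP

/-- `P(α)`: every graph on the ordinal `α` has an infinite path, or an independent set of order
type `α`. -/
def P (α : Ordinal.{0}) : Prop := ∀ G : SimpleGraph α.ToType,
  (∃ f : ℕ → α.ToType, Function.Injective f ∧ ∀ n, G.Adj (f n) (f (n + 1))) ∨
    ∃ S : Set α.ToType, (∀ x ∈ S, ∀ y ∈ S, ¬ G.Adj x y) ∧ Nonempty (S ≃o α.ToType)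

/-- `ω₁` as a type. -/
abbrev Om : Type := (ℵ₁ : Cardinal.{0}).ord.ToType

/-- Jensen's diamond principle `◇` on `ω₁`. -/
def Diamond : Prop := ∃ A : Om → Set Om, ∀ X : Set Om, IsStationary {ν | X ∩ Iio ν = A ν}

end Pool.Agent.W910.IP
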