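import Pool.Agent.W910.IP.Defs

/-! The diamond principle, in the form of a sentence with quantifiers over subsets of `ω₁`. -/

set_option autoImplicit false

open Cardinal Ordinal Set

namespace Pool.Agent.W910.IP

/-- `C` is a closed unbounded subset of `ω₁`. -/
def IsClubSet (C : Om → Prop) : Prop :=
  (∀ a : Om, ∃ b : Om, a < b ∧ C b) ∧
    ∀ a : Om, (∃ b, b < a) → (∀ b : Om, b < a → ∃ c : Om, (b < c ∧ c < a) ∧ C c) → C a

/-- Jensen's diamond principle `◇` on `ω₁`: there are sets `A a ⊆ ω₁` (`a < ω₁`) such that for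
every `S ⊆ ω₁` and every closed unbounded `C ⊆ ω₁` there is `a ∈ C` with `S ∩ a = A a ∩ a`. -/
def DiamondOm : Prop :=
  ∃ A : Om → Om → Prop, ∀ S : Om → Prop, ∀ C : Om → Prop,
    IsClubSet C → ∃ a : Om, C a ∧ ∀ b : Om, b < a → (S b ↔ A a b)

theorem om_gt (a : Om) : ∃ b, a < b := by
  have hl : Order.IsSuccLimit (ℵ₁ : Cardinal.{0}).ord := isSuccLimit_ord (aleph0_le_aleph 1)
  have hz : (ToType.mk.symm a).1 < (ℵ₁ : Cardinal.{0}).ord := (ToType.mk.symm a).2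
  refine ⟨ToType.mk ⟨_, hl.succ_lt hz⟩, ?_⟩
  rw [← ToType.mk.symm.lt_iff_lt, OrderIso.symm_apply_apply]
  exact Order.lt_succ (ToType.mk.symm a).1

theorem diamond_of (h : DiamondOm) : Diamond := by
  obtain ⟨A, hA⟩ := h
  refine ⟨fun ν => {b | b < ν ∧ A ν b}, fun X t ht => ?_⟩
  obtain ⟨a, ha, hb⟩ := hA (fun x => x ∈ X) (fun x => x ∈ t) ⟨fun a => by
      obtain ⟨b, hab⟩ := om_gt a
      obtain ⟨c, hc, hbc⟩ := ht.isCofinal b
      exact ⟨c, hab.trans_le hbc, hc⟩, fun a ha h => by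
      refine ht.isLUB_mem (t := {c | c ∈ t ∧ c < a}) (fun c hc => hc.1) ?_ ?_
      · obtain ⟨b, hb⟩ := ha
        obtain ⟨c, ⟨-, hc⟩, hct⟩ := h b hb
        exact ⟨c, hct, hc⟩
      · refine ⟨fun c hc => hc.2.le, fun d hd => ?_⟩
        by_contra hda
        rw [not_le] at hda
        obtain ⟨c, ⟨hc1, hc2⟩, hct⟩ := h d hda
        exact absurd (hd ⟨hct, hc2⟩) (not_le.2 hc1)⟩
  refine ⟨a, ?_, ha⟩
  ext x
  constructor
  · rintro ⟨h1, h2⟩
    exact ⟨h2, (hb x h2).1 h1⟩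
  · rintro ⟨h1, h2⟩
    exact ⟨(hb x h1).2 h2, h1⟩

end Pool.Agent.W910.IP
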