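import Pool.Agent.W910.IP.T_IP1

/-! Assembly (conditional on the parts). -/

set_option autoImplicit false

open Cardinal Ordinal Set

namespace Pool.Agent.W910.IP

theorem countable_Iic (ξ : Om) : (Iic ξ).Countable := by
  have h : (Iio ξ).Countable := by
    rw [Cardinal.countable_iff_lt_aleph_one]
    have := Cardinal.mk_Iio_lt ξ
    simpa using this
  have h2 : Iic ξ = insert ξ (Iio ξ) := by
    ext x
    simp [le_iff_eq_or_lt]
  rw [h2]
  exact h.insert ξ

theorem fin (hrec : S_rec) (hray : S_ray) (hguess : S_guess) (hcard : S_card) (hord : S_ord) :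
    Diamond → ¬ P Al := by
  intro hD hP
  obtain ⟨row, lev, hne, hfull⟩ := hord
  obtain ⟨code, hcode⟩ := hcard
  obtain ⟨D, hg⟩ := hguess hD _ code hcode row lev
  obtain ⟨A, h1, h2, h3, h4⟩ := hrec Om Al.ToType countable_Iic row lev hne D
  let G : SimpleGraph Al.ToType :=
    { Adj := fun x y => x ∈ A (row y) (lev y) ∨ y ∈ A (row x) (lev x)
      symm := ⟨fun x y h => h.symm⟩
      loopless := ⟨fun x h => by
        rcases h with h | h <;> exact lt_irrefl _ (h1 _ _ x h).1⟩ }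
  rcases hP G with ⟨f, hf, hadj⟩ | ⟨S, hind, hiso⟩
  · exact hray Om Al.ToType row lev (fun z x => z ∈ A (row x) (lev x)) (fun z x h => h1 _ _ z h)
      (fun z y x h h' => h2 _ _ y h' h) (fun z z' x h h' => h3 _ _ z h z' h') ⟨f, hf, hadj⟩
  · obtain ⟨ν, hr, hs⟩ := hg S (hfull S hiso)
    obtain ⟨ξ, hξ, hun⟩ := hfull S hiso ν
    obtain ⟨J, hJ⟩ := h4 ν hr ξ hξ
    obtain ⟨x, hx, rfl, hl⟩ := hun J
    obtain ⟨z, hz, hzD⟩ := hJ (lev x) hl
    exact hind z (hs hzD) x hx (Or.inl hz)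

end Pool.Agent.W910.IP
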