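import Pool.Agent.W910.IP.Stmts

/-! Part IP2: the comparability graph of a forest of finite height has no infinite path. -/

set_option autoImplicit false

namespace Pool.Agent.W910.IP.T_IP2

section

variable {Ω V : Type} [LinearOrder Ω] [WellFoundedLT Ω] (row : V → Ω) (lev : V → ℕ)
  (B : V → V → Prop)

theorem lemA (htr : ∀ z y x, B z y → B y x → B z x)
    (hch : ∀ z z' x, B z x → B z' x → z = z' ∨ B z z' ∨ B z' z)
    (f : ℕ → V) (hf : ∀ n, B (f n) (f (n + 1)) ∨ B (f (n + 1)) (f n)) (N : ℕ) :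
    ∃ i, i ≤ N ∧ ∀ k, k ≤ N → f i = f k ∨ B (f i) (f k) := by
  induction N with
  | zero =>
    refine ⟨0, le_rfl, fun k hk => ?_⟩
    rw [Nat.le_zero.1 hk]
    exact Or.inl rfl
  | succ N ih =>
    obtain ⟨i, hi, h⟩ := ih
    -- if the old minimum is weakly below the new point
    have case1 : (f i = f (N + 1) ∨ B (f i) (f (N + 1))) →
        ∃ i, i ≤ N + 1 ∧ ∀ k, k ≤ N + 1 → f i = f k ∨ B (f i) (f k) := by
      intro h1
      refine ⟨i, by omega, fun k hk => ?_⟩
      rcases Nat.lt_or_ge N k with hk' | hk'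
      · have : k = N + 1 := by omega
        rw [this]
        exact h1
      · exact h k hk'
    -- if the new point is below the old minimum
    have case2 : B (f (N + 1)) (f i) →
        ∃ i, i ≤ N + 1 ∧ ∀ k, k ≤ N + 1 → f i = f k ∨ B (f i) (f k) := by
      intro h1
      refine ⟨N + 1, le_rfl, fun k hk => ?_⟩
      rcases Nat.lt_or_ge N k with hk' | hk'
      · have : k = N + 1 := by omega
        rw [this]
        exact Or.inl rfl
      · right
        rcases h k hk' with h2 | h2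
        · rw [← h2]
          exact h1
        · exact htr _ _ _ h1 h2
    rcases hf N with h1 | h1
    · apply case1
      right
      rcases h N le_rfl with h2 | h2
      · rw [h2]
        exact h1
      · exact htr _ _ _ h2 h1
    · rcases h N le_rfl with h2 | h2
      · apply case2
        rw [h2]
        exact h1
      · rcases hch _ _ _ h2 h1 with h3 | h3 | h3
        · exact case1 (Or.inl h3)
        · exact case1 (Or.inr h3)
        · exact case2 h3

theorem lemB (hB : ∀ z x, B z x → row z < row x ∧ lev x < lev z)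
    (htr : ∀ z y x, B z y → B y x → B z x)
    (hch : ∀ z z' x, B z x → B z' x → z = z' ∨ B z z' ∨ B z' z)
    (f : ℕ → V) (hf : ∀ n, B (f n) (f (n + 1)) ∨ B (f (n + 1)) (f n)) :
    ∃ n0, ∀ k, f n0 = f k ∨ B (f n0) (f k) := by
  let T : Set Ω := {ρ | ∃ i N, i ≤ N ∧ (∀ k, k ≤ N → f i = f k ∨ B (f i) (f k)) ∧ row (f i) = ρ}
  have hT : T.Nonempty := by
    obtain ⟨i, hi, h⟩ := lemA B htr hch f hf 0
    exact ⟨row (f i), i, 0, hi, h, rfl⟩
  obtain ⟨ρ, ⟨i, N, hi, h, hρ⟩, hmin⟩ := (wellFounded_lt (α := Ω)).has_min T hT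
  refine ⟨i, fun k => ?_⟩
  obtain ⟨i', hi', h'⟩ := lemA B htr hch f hf (max N k)
  rcases h' i (hi.trans (le_max_left _ _)) with h1 | h1
  · rw [← h1]
    exact h' k (le_max_right _ _)
  · exfalso
    apply hmin (row (f i')) ⟨i', max N k, hi', h', rfl⟩
    rw [← hρ]
    exact (hB _ _ h1).1

theorem lemC (hB : ∀ z x, B z x → row z < row x ∧ lev x < lev z)
    (htr : ∀ z y x, B z y → B y x → B z x)
    (hch : ∀ z z' x, B z x → B z' x → z = z' ∨ B z z' ∨ B z' z)
    (f : ℕ → V) (hinj : Function.Injective f)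
    (hf : ∀ n, B (f n) (f (n + 1)) ∨ B (f (n + 1)) (f n)) :
    ∃ (L : ℕ) (i : ℕ) (g : ℕ → V), L = lev (f i) ∧ Function.Injective g ∧
      (∀ n, B (g n) (g (n + 1)) ∨ B (g (n + 1)) (g n)) ∧ ∀ k, lev (g k) < L := by
  obtain ⟨n0, hn0⟩ := lemB row lev B hB htr hch f hf
  refine ⟨lev (f n0), n0, fun k => f (n0 + 1 + k), rfl, ?_, ?_, ?_⟩
  · intro a b hab
    have := hinj hab
    omega
  · intro n
    exact hf (n0 + 1 + n)
  · intro k
    rcases hn0 (n0 + 1 + k) with h | h
    · have := hinj h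
      omega
    · exact (hB _ _ h).2

theorem lemD (hB : ∀ z x, B z x → row z < row x ∧ lev x < lev z)
    (htr : ∀ z y x, B z y → B y x → B z x)
    (hch : ∀ z z' x, B z x → B z' x → z = z' ∨ B z z' ∨ B z' z) (L : ℕ) :
    ∀ f : ℕ → V, Function.Injective f →
      (∀ n, B (f n) (f (n + 1)) ∨ B (f (n + 1)) (f n)) → ¬ ∀ k, lev (f k) < L := by
  induction L using Nat.strong_induction_on with
  | _ L ih =>
    intro f hinj hf hL
    obtain ⟨L', i, g, h1, h2, h3, h4⟩ := lemC row lev B hB htr hch f hinj hf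
    exact ih L' (h1 ▸ hL i) g h2 h3 h4

end

theorem main : S_ray := by
  intro Ω V _ _ row lev B hB htr hch
  rintro ⟨f, hinj, hf⟩
  obtain ⟨L', i, g, h1, h2, h3, h4⟩ := lemC row lev B hB htr hch f hinj hf
  exact lemD row lev B hB htr hch L' g h2 h3 h4

end Pool.Agent.W910.IP.T_IP2
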