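import Pool.Agent.W910.IP.Stmts
import Pool.Agent.W910.NS.T_O2

/-! Guessing with diamond. -/

set_option autoImplicit false

open Cardinal Ordinal Set

namespace Pool.Agent.W910.IP.T_IP3

open Pool.Agent.W910.IP

theorem main : S_guess := by
  rintro ⟨A, hA⟩ V code hcode row lev
  refine ⟨fun ν => {x | code x ∈ A ν}, fun S hS => ?_⟩
  have hreg : Pool.Agent.W910.NS.Reg (Pool.Agent.W910.NS.Ltype (ℵ₁ : Cardinal.{0})) :=
    Pool.Agent.W910.NS.T_O2.reg ℵ₁ Cardinal.isRegular_aleph_one Cardinal.aleph0_lt_aleph_one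
  have hreg' : Pool.Agent.W910.NS.Reg Om := hreg
  choose xi hxi1 hxi2 using hS
  choose pt hpt1 hpt2 hpt3 using hxi2
  have hb : ∀ ζ : Om, ∃ b, ∀ a ∈ insert (xi ζ) (Set.range fun m => code (pt ζ m)), a < b := by
    intro ζ
    apply hreg'.bd
    refine lt_of_le_of_lt ?_ hreg'.unc
    rw [le_aleph0_iff_set_countable]
    exact (Set.countable_range _).insert _
  choose f hf using hb
  have hst := (Pool.Agent.W910.NS.T_O2.stat Om hreg' {ν | code '' S ∩ Iio ν = A ν}).1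
    (hA (code '' S)) f
  obtain ⟨ν, hν, hlm, hcl⟩ := hst
  have hν' : code '' S ∩ Iio ν = A ν := hν
  refine ⟨ν, ⟨hlm.1, ?_⟩, ?_⟩
  · intro ε hε
    have hfν := hcl ε hε
    refine ⟨xi ε, hxi1 ε, lt_trans (hf ε _ (Set.mem_insert _ _)) hfν, fun m => ?_⟩
    refine ⟨pt ε m, ?_, hpt2 ε m, hpt3 ε m⟩
    show code (pt ε m) ∈ A ν
    rw [← hν']
    refine ⟨⟨pt ε m, hpt1 ε m, rfl⟩, ?_⟩
    exact lt_trans (hf ε _ (Set.mem_insert_of_mem _ ⟨m, rfl⟩)) hfν
  · intro x hx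
    have hx' : code x ∈ A ν := hx
    rw [← hν'] at hx'
    obtain ⟨⟨y, hy, hyx⟩, _⟩ := hx'
    rw [← hcode hyx]
    exact hy

end Pool.Agent.W910.IP.T_IP3
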