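import Pool.Agent.W910.IP.Stmts

set_option autoImplicit false

open Cardinal Ordinal Set

namespace Pool.Agent.W910.IP.T_IP6
open Pool.Agent.W910.IP

theorem main : S_card := by
  have h : Cardinal.mk Al.ToType ≤ Cardinal.mk Om := by
    have h1 : Cardinal.mk Om = ℵ₁ := by
      unfold Om
      rw [Cardinal.mk_toType, Cardinal.card_ord]
    rw [h1, Cardinal.mk_toType]
    unfold Al
    refine (Ordinal.card_opow_le _ _).trans ?_
    rw [Cardinal.card_ord]
    refine max_le ?_ (max_le le_rfl ?_)
    · exact Cardinal.aleph0_le_aleph 1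
    · have : ((ω : Ordinal.{0}) + 2).card = ℵ₀ := by
        rw [Ordinal.card_add]
        simp
      rw [this]
      exact Cardinal.aleph0_le_aleph 1
  obtain ⟨f⟩ := (Cardinal.le_def _ _).mp h
  exact ⟨f, f.injective⟩

end Pool.Agent.W910.IP.T_IP6
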