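import Pool.Agent.W910.IP.Stmts
import Pool.Agent.W910.NS.T_O2

/-! From `ω₁ ^ (ω + 2)` to all ordinals between `ω₁ ^ (ω + 2)` and `ω₁ ^ (ω * 2)`. -/

set_option autoImplicit false

open Cardinal Ordinal Set

namespace Pool.Agent.W910.IP.T_IP7

open Pool.Agent.W910.IP

/-- `ω₁` -/
noncomputable abbrev w : Ordinal.{0} := (ℵ₁ : Cardinal.{0}).ord

theorem w_pos : 0 < w := by
  rw [Cardinal.lt_ord]
  simp

theorem one_lt_w : 1 < w := by
  rw [Cardinal.lt_ord]
  simp

theorem w_ne : w ≠ 0 := w_pos.ne'

theorem pow_ne (a : Ordinal.{0}) : w ^ a ≠ 0 := (opow_pos a w_pos).ne'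

theorem w_lim : Order.IsSuccLimit w := isSuccLimit_ord (aleph0_le_aleph 1)

theorem Al_eq : Al = w ^ ((ω : Ordinal.{0}) + 1) * w := by
  have h : ((ω : Ordinal.{0}) + 2) = (ω + 1) + 1 := by
    rw [add_assoc]
    norm_num
  unfold Al
  rw [h, opow_add _ (ω + 1) 1, opow_one]

theorem Al_ne : Al ≠ 0 := pow_ne _

theorem bdd (A : Set Om) (hA : A.Countable) : ∃ b, ∀ a ∈ A, a < b := by
  have h := Pool.Agent.W910.NS.T_O2.reg (ℵ₁ : Cardinal.{0}) isRegular_aleph_one
    aleph0_lt_aleph_one
  refine h.bd A ?_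
  have h1 : #(Pool.Agent.W910.NS.Ltype (ℵ₁ : Cardinal.{0})) = ℵ₁ := mk_ord_toType _
  rw [h1]
  exact lt_of_le_of_lt (le_aleph0_iff_set_countable.2 hA) aleph0_lt_aleph_one

theorem countable_Iio (p : Om) : (Iio p).Countable := by
  rw [← Cardinal.le_aleph0_iff_set_countable, ← Cardinal.lt_aleph_one_iff]
  have := Cardinal.mk_Iio_lt p
  simpa using this

/-- spreading out -/
theorem exH (s : Om → Om → Om) (ζ : Om → Om) :
    ∃ h : Om → Om, ∀ p₁ p₂, p₁ < p₂ → s (h p₁) (ζ p₁) ≤ h p₂ := by
  classical
  have hb : ∀ (p : Om) (rec : ∀ p' < p, Om), ∃ b, ∀ (p' : Om) (hp : p' < p),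
      s (rec p' hp) (ζ p') < b := by
    intro p rec
    have := bdd (range fun q : Iio p => s (rec q.1 q.2) (ζ q.1)) (by
      have : Countable (Iio p) := (countable_Iio p).to_subtype
      exact countable_range _)
    obtain ⟨b, hb⟩ := this
    exact ⟨b, fun p' hp => hb _ ⟨⟨p', hp⟩, rfl⟩⟩
  choose F hF using hb
  refine ⟨(wellFounded_lt (α := Om)).fix F, fun p₁ p₂ hp => ?_⟩
  rw [(wellFounded_lt (α := Om)).fix_eq F p₂]
  exact (hF p₂ (fun y _ => (wellFounded_lt (α := Om)).fix F y) p₁ hp).le

/-- no strictly monotone map to a smaller ordinal -/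
theorem noSmall (α : Ordinal.{0}) (S : Set α.ToType) (g : S ≃o α.ToType)
    (f : α.ToType → Ordinal.{0}) (hf : StrictMonoOn f S) (b : Ordinal.{0}) (hb : b < α)
    (hfb : ∀ x ∈ S, f x < b) : False := by
  have hmono : StrictMono (fun y : α.ToType => f (g.symm y).1) := by
    intro y y' hyy
    exact hf (g.symm y).2 (g.symm y').2 (g.symm.lt_iff_lt.2 hyy)
  have hle : ∀ y : α.ToType, (ToType.mk.symm y).1 ≤ f (g.symm y).1 := by
    intro y
    induction y using (wellFounded_lt (α := α.ToType)).induction with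
    | _ y ih =>
      apply le_of_forall_lt
      intro o ho
      have hoA : o < α := ho.trans (ToType.mk.symm y).2
      have hy' : (ToType.mk ⟨o, hoA⟩ : α.ToType) < y := by
        rw [← ToType.mk.symm.lt_iff_lt, OrderIso.symm_apply_apply]
        exact ho
      have h1 := ih _ hy'
      rw [OrderIso.symm_apply_apply] at h1
      exact lt_of_le_of_lt h1 (hmono hy')
  have h1 := hle (ToType.mk ⟨b, hb⟩)
  rw [OrderIso.symm_apply_apply] at h1
  exact absurd (hfb _ (g.symm (ToType.mk ⟨b, hb⟩)).2) (not_lt.2 h1)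

/-- a set of type less than `μ` -/
theorem exG (T : Set Al.ToType) (hT : ¬ Nonempty (T ≃o Al.ToType)) :
    ∃ (ζ : Om) (g : Al.ToType → Ordinal.{0}), StrictMonoOn g T ∧
      ∀ z ∈ T, g z < w ^ ((ω : Ordinal.{0}) + 1) * (ToType.mk.symm ζ).1 := by
  classical
  have h1 : Ordinal.type (fun a b : T => a < b) ≤ Al := by
    have h2 : Ordinal.type (fun a b : T => a < b) ≤
        Ordinal.type (fun a b : Al.ToType => a < b) :=
      (RelEmbedding.ofMonotone (r := fun a b : T => a < b) (s := fun a b : Al.ToType => a < b)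
        (Subtype.val : T → Al.ToType) (fun a b h => h)).ordinal_type_le
    rwa [type_toType] at h2
  have h2 : Ordinal.type (fun a b : T => a < b) ≠ Al := by
    intro h
    have h3 : Ordinal.type (fun a b : T => a < b) =
        Ordinal.type (fun a b : Al.ToType => a < b) := by
      rw [type_toType]; exact h
    obtain ⟨e⟩ := Ordinal.type_eq.1 h3
    exact hT ⟨OrderIso.ofRelIsoLT e⟩
  have h3 := lt_of_lt_of_eq (lt_of_le_of_ne h1 h2) Al_eq
  obtain ⟨z, hz, h4⟩ := (lt_mul_iff_of_isSuccLimit w_lim).1 h3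
  refine ⟨ToType.mk ⟨z, hz⟩, fun x => if hx : x ∈ T then
    Ordinal.typein (fun a b : T => a < b) ⟨x, hx⟩ else 0, ?_, ?_⟩
  · intro x hx y hy hxy
    simp only [dif_pos hx, dif_pos hy]
    exact (Ordinal.typein_lt_typein (fun a b : T => a < b)).2 hxy
  · intro x hx
    simp only [dif_pos hx]
    rw [OrderIso.symm_apply_apply]
    exact (Ordinal.typein_lt_type _ _).trans h4

theorem div_mono' {a b c : Ordinal.{0}} (hc : c ≠ 0) (h : a ≤ b) : a / c ≤ b / c := by
  rw [← mul_le_iff_le_div hc]
  exact (mul_div_le a c).trans h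

theorem mod_lt_mod {a b c : Ordinal.{0}} (h : a < b) (hq : a / c = b / c) : a % c < b % c := by
  have h1 := div_add_mod a c
  have h2 := div_add_mod b c
  rw [← h1, ← h2, hq] at h
  exact (add_lt_add_iff_left _).1 h

theorem main (α : Ordinal.{0}) (hα : Al ≤ α) (hα' : α < w ^ ((ω : Ordinal.{0}) * 2))
    (hP : P α) : P Al := by
  classical
  intro G
  let val : α.ToType → Ordinal.{0} := fun x => (ToType.mk.symm x).1
  let md : α.ToType → Al.ToType := fun x => ToType.mk ⟨val x % Al, mod_lt _ Al_ne⟩
  have hval : ∀ x y, x < y → val x < val y := fun x y h => ToType.mk.symm.lt_iff_lt.2 h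
  have hmd : ∀ x y, val x % Al < val y % Al → md x < md y := by
    intro x y h
    exact ToType.mk.lt_iff_lt.2 h
  let H : SimpleGraph α.ToType :=
    { Adj := fun x y => val x / Al = val y / Al ∧ G.Adj (md x) (md y)
      symm := ⟨fun x y h => ⟨h.1.symm, h.2.symm⟩⟩
      loopless := ⟨fun x h => G.loopless.irrefl _ h.2⟩ }
  rcases hP H with ⟨f, hf, hadj⟩ | ⟨S, hS, ⟨g⟩⟩
  · left
    refine ⟨fun n => md (f n), ?_, fun n => (hadj n).2⟩
    have hq : ∀ n, val (f n) / Al = val (f 0) / Al := by
      intro n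
      induction n with
      | zero => rfl
      | succ n ih => rw [← ih]; exact (hadj n).1.symm
    intro n m hnm
    apply hf
    apply ToType.mk.symm.injective
    apply Subtype.ext
    have h1 : val (f n) % Al = val (f m) % Al := by
      have h2 := congrArg (fun z : Al.ToType => (ToType.mk.symm z).1) hnm
      simpa only [md, OrderIso.symm_apply_apply] using h2
    change val (f n) = val (f m)
    rw [← div_add_mod (val (f n)) Al, ← div_add_mod (val (f m)) Al, h1, hq n, hq m]
  · right
    by_contra hcon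
    let T : Ordinal.{0} → Set Al.ToType := fun q => {z | ∃ x ∈ S, val x / Al = q ∧ md x = z}
    have hT : ∀ q, ¬ Nonempty (T q ≃o Al.ToType) := by
      intro q hq
      refine hcon ⟨T q, ?_, hq⟩
      rintro _ ⟨x, hx, hxq, rfl⟩ _ ⟨y, hy, hyq, rfl⟩ hxy
      exact hS x hx y hy ⟨hxq.trans hyq.symm, hxy⟩
    choose ζ g' hg hgb using fun q => exG (T q) (hT q)
    have hprin : IsPrincipal (· + ·) w := isPrincipal_add_ord (aleph0_le_aleph 1)
    have addlt : ∀ a b : Ordinal.{0}, a < w → b < w → a + b < w := fun a b ha hb => hprin ha hb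
    let s : Om → Om → Om := fun a b => ToType.mk
      ⟨(ToType.mk.symm a).1 + (ToType.mk.symm b).1,
        mem_Iio.2 (addlt _ _ (mem_Iio.1 (ToType.mk.symm a).2) (mem_Iio.1 (ToType.mk.symm b).2))⟩
    choose h hh using fun q' : Ordinal.{0} => exH s (fun p => ζ (w * q' + (ToType.mk.symm p).1))
    let pm : Ordinal.{0} → Om := fun q => ToType.mk ⟨q % w, mod_lt _ w_ne⟩
    let hv : Ordinal.{0} → Ordinal.{0} := fun q => (ToType.mk.symm (h (q / w) (pm q))).1
    let zv : Ordinal.{0} → Ordinal.{0} := fun q => (ToType.mk.symm (ζ q)).1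
    have hvlt : ∀ q, hv q < w := fun q => (ToType.mk.symm (h (q / w) (pm q))).2
    have zvlt : ∀ q, zv q < w := fun q => (ToType.mk.symm (ζ q)).2
    have K1 : ∀ q₁ q₂, q₁ < q₂ → q₁ / w = q₂ / w → hv q₁ + zv q₁ ≤ hv q₂ := by
      intro q₁ q₂ hlt hq
      have h1 : pm q₁ < pm q₂ := ToType.mk.lt_iff_lt.2 (mod_lt_mod hlt hq)
      have h2 := hh (q₁ / w) (pm q₁) (pm q₂) h1
      have h3 : w * (q₁ / w) + (ToType.mk.symm (pm q₁)).1 = q₁ := by
        simp only [pm, OrderIso.symm_apply_apply]
        exact div_add_mod q₁ w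
      simp only [h3] at h2
      have h4 := ToType.mk.symm.le_iff_le.2 h2
      have h5 : (ToType.mk.symm (s (h (q₁ / w) (pm q₁)) (ζ q₁))).1 ≤
          (ToType.mk.symm (h (q₁ / w) (pm q₂))).1 := h4
      simp only [s, OrderIso.symm_apply_apply] at h5
      simp only [hv, zv]
      rw [← hq]
      exact h5
    let nu : Ordinal.{0} := w ^ ((ω : Ordinal.{0}) + 1)
    have hnu : 0 < nu := opow_pos _ w_pos
    have hAl : Al = nu * w := Al_eq
    let F : α.ToType → Ordinal.{0} := fun x => Al * ((val x / Al) / w) + (nu * hv (val x / Al) +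
      (if val x / Al < α / Al then g' (val x / Al) (md x) else val x % Al))
    have hC : ∀ x ∈ S, val x / Al < α / Al → ∀ q₂, val x / Al < q₂ →
        F x < Al * (q₂ / w) + nu * hv q₂ := by
      intro x hx hxδ q₂ hq₂
      have h1 : g' (val x / Al) (md x) < nu * zv (val x / Al) :=
        hgb _ _ ⟨x, hx, rfl, rfl⟩
      have h2 : F x < Al * ((val x / Al) / w) + nu * (hv (val x / Al) + zv (val x / Al)) := by
        simp only [F]
        rw [if_pos hxδ, mul_add nu]
        exact (add_lt_add_iff_left _).2 ((add_lt_add_iff_left _).2 h1)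
      rcases (div_mono' w_ne hq₂.le).lt_or_eq with h3 | h3
      · refine h2.trans_le ?_
        have h4 : nu * (hv (val x / Al) + zv (val x / Al)) ≤ Al := by
          rw [hAl]
          exact mul_le_mul_right (addlt _ _ (hvlt _) (zvlt _)).le nu
        calc Al * ((val x / Al) / w) + nu * (hv (val x / Al) + zv (val x / Al))
            ≤ Al * ((val x / Al) / w) + Al := (add_le_add_iff_left _).2 h4
          _ = Al * ((val x / Al) / w + 1) := by rw [mul_add, mul_one]
          _ ≤ Al * (q₂ / w) := mul_le_mul_right (Order.add_one_le_of_lt h3) Al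
          _ ≤ _ := le_self_add
      · refine h2.trans_le ?_
        rw [h3]
        exact (add_le_add_iff_left _).2 (mul_le_mul_right (K1 _ _ hq₂ h3) nu)
    have hδ : ∀ x, val x / Al ≤ α / Al := fun x =>
      div_mono' Al_ne (ToType.mk.symm x).2.le
    have hF : StrictMonoOn F S := by
      intro x hx y hy hxy
      have h1 := hval x y hxy
      rcases (div_mono' Al_ne h1.le).lt_or_eq with h2 | h2
      · refine (hC x hx (h2.trans_le (hδ y)) _ h2).trans_le ?_
        simp only [F]
        rw [← add_assoc]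
        exact le_self_add
      · have h3 := mod_lt_mod h1 h2
        simp only [F]
        rw [← h2]
        refine (add_lt_add_iff_left _).2 ((add_lt_add_iff_left _).2 ?_)
        split_ifs with h4
        · exact hg _ ⟨x, hx, rfl, rfl⟩ ⟨y, hy, h2.symm, rfl⟩ (hmd x y h3)
        · exact h3
    have hb : ∀ x ∈ S, F x < Al * ((α / Al) / w) + (nu * hv (α / Al) + α % Al) := by
      intro x hx
      rcases (hδ x).lt_or_eq with h1 | h1
      · refine (hC x hx h1 _ h1).trans_le ?_
        rw [← add_assoc]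
        exact le_self_add
      · simp only [F]
        rw [h1, if_neg (lt_irrefl _)]
        exact (add_lt_add_iff_left _).2 ((add_lt_add_iff_left _).2
          (mod_lt_mod (ToType.mk.symm x).2 h1))
    have hpA : IsPrincipal (· + ·) Al :=
      isPrincipal_add_opow_of_isPrincipal_add hprin ((ω : Ordinal.{0}) + 2)
    have h1 : nu * hv (α / Al) + α % Al < Al := by
      refine hpA ?_ (mod_lt _ Al_ne)
      rw [hAl]
      exact (mul_lt_mul_iff_right₀ hnu).2 (hvlt _)
    have h2 : Al * ((α / Al) / w + 1) ≤ α := by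
      by_cases h0 : (α / Al) / w = 0
      · rw [h0, zero_add, mul_one]
        exact hα
      · have h3 : (α / Al) / w < w * ((α / Al) / w) := by
          by_contra hc
          rw [not_lt] at hc
          have h4 : ∀ n : ℕ, w ^ n ≤ (α / Al) / w := by
            intro n
            induction n with
            | zero => rw [pow_zero]; exact Order.one_le_iff_pos.2 (pos_iff_ne_zero.2 h0)
            | succ n ih =>
              rw [pow_succ']
              exact (mul_le_mul_right ih w).trans hc
          have h5 : w ^ (ω : Ordinal.{0}) ≤ α / Al := by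
            rw [opow_le_of_isSuccLimit w_ne isSuccLimit_omega0]
            intro b hb
            obtain ⟨n, rfl⟩ := lt_omega0.1 hb
            rw [opow_natCast]
            refine (h4 n).trans ((mul_div_le (α / Al) w).trans' ?_)
            calc (α / Al) / w = 1 * ((α / Al) / w) := (one_mul _).symm
              _ ≤ w * ((α / Al) / w) := mul_le_mul_left one_lt_w.le _
          have h6 : w ^ ((ω : Ordinal.{0}) * 2) ≤ α := by
            calc w ^ ((ω : Ordinal.{0}) * 2) = w ^ ((ω : Ordinal.{0}) + ω) := by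
                  rw [← one_add_one_eq_two, mul_add, mul_one]
              _ ≤ w ^ (((ω : Ordinal.{0}) + 2) + ω) :=
                  opow_le_opow_right w_pos (add_le_add_left le_self_add _)
              _ = Al * w ^ (ω : Ordinal.{0}) := by rw [opow_add]; rfl
              _ ≤ Al * (α / Al) := mul_le_mul_right h5 Al
              _ ≤ α := mul_div_le α Al
          exact absurd hα' (not_lt.2 h6)
        calc Al * ((α / Al) / w + 1) ≤ Al * (w * ((α / Al) / w)) :=
              mul_le_mul_right (Order.add_one_le_of_lt h3) Al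
          _ ≤ Al * (α / Al) := mul_le_mul_right (mul_div_le _ _) Al
          _ ≤ α := mul_div_le α Al
    have h3 : Al * ((α / Al) / w) + (nu * hv (α / Al) + α % Al) < α := by
      refine lt_of_lt_of_le ?_ h2
      rw [mul_add, mul_one]
      exact (add_lt_add_iff_left _).2 h1
    exact noSmall α S g F hF _ h3 hb

end Pool.Agent.W910.IP.T_IP7
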