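import Pool.Agent.W910.IP.Fin
import Pool.Agent.W910.IP.Dia
import Pool.Agent.W910.IP.T_IP2
import Pool.Agent.W910.IP.T_IP3
import Pool.Agent.W910.IP.T_IP4
import Pool.Agent.W910.IP.T_IP5
import Pool.Agent.W910.IP.T_IP6
import Pool.Agent.W910.IP.T_IP7

/-! Assembly. -/

set_option autoImplicit false

open Cardinal Ordinal Set

namespace Pool.Agent.W910.IP

theorem notAl (h : DiamondOm) : ¬ P Al :=
  fin T_IP1.main T_IP2.main T_IP3.main T_IP6.main (T_IP5.main T_IP4.main) (diamond_of h)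

theorem notP (h : DiamondOm) (α : Ordinal.{0})
    (h1 : (ℵ₁ : Cardinal.{0}).ord ^ ((ω : Ordinal.{0}) + 2) ≤ α)
    (h2 : α < (ℵ₁ : Cardinal.{0}).ord ^ ((ω : Ordinal.{0}) * 2)) : ¬ P α :=
  fun hP => notAl h (T_IP7.main α h1 h2 hP)

end Pool.Agent.W910.IP
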