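import Pool.Agent.W910.IP.Defs

/-! Statements of the parts. -/

set_option autoImplicit false

open Cardinal Ordinal Set

namespace Pool.Agent.W910.IP

section

variable {Ω V : Type} [LinearOrder Ω] (row : V → Ω) (lev : V → ℕ)

/-- `D ν` has points of unbounded level in cofinally many rows below `ν`. -/
def Rich (D : Ω → Set V) (ν : Ω) : Prop :=
  (∃ ε, ε < ν) ∧ ∀ ε < ν, ∃ ξ, ε ≤ ξ ∧ ξ < ν ∧ ∀ m, ∃ x ∈ D ν, row x = ξ ∧ m ≤ lev x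

/-- `S` has points of unbounded level in cofinally many rows. -/
def Full (S : Set V) : Prop := ∀ ζ, ∃ ξ, ζ ≤ ξ ∧ ∀ m, ∃ x ∈ S, row x = ξ ∧ m ≤ lev x

end

/-- The main recursion. -/
def S_rec : Prop := ∀ (Ω V : Type) [LinearOrder Ω] [WellFoundedLT Ω],
  (∀ ξ : Ω, (Iic ξ).Countable) → ∀ (row : V → Ω) (lev : V → ℕ),
  (∀ ξ m, ∃ x, row x = ξ ∧ m ≤ lev x) → ∀ D : Ω → Set V, ∃ A : Ω → ℕ → Set V,
    (∀ ξ j, ∀ z ∈ A ξ j, row z < ξ ∧ j < lev z) ∧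
    (∀ ξ j, ∀ z ∈ A ξ j, A (row z) (lev z) ⊆ A ξ j) ∧
    (∀ ξ j, ∀ z ∈ A ξ j, ∀ z' ∈ A ξ j,
      z = z' ∨ z ∈ A (row z') (lev z') ∨ z' ∈ A (row z) (lev z)) ∧
    ∀ ν, Rich row lev D ν → ∀ ξ, ν ≤ ξ → ∃ J, ∀ j, J ≤ j → ∃ z ∈ A ξ j, z ∈ D ν

/-- The comparability graph of a forest of finite height has no infinite path. -/
def S_ray : Prop := ∀ (Ω V : Type) [LinearOrder Ω] [WellFoundedLT Ω] (row : V → Ω) (lev : V → ℕ)
  (B : V → V → Prop), (∀ z x, B z x → row z < row x ∧ lev x < lev z) →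
  (∀ z y x, B z y → B y x → B z x) →
  (∀ z z' x, B z x → B z' x → z = z' ∨ B z z' ∨ B z' z) →
  ¬ ∃ f : ℕ → V, Function.Injective f ∧ ∀ n, B (f n) (f (n + 1)) ∨ B (f (n + 1)) (f n)

/-- Guessing. -/
def S_guess : Prop := Diamond → ∀ (V : Type) (code : V → Om), Function.Injective code →
  ∀ (row : V → Om) (lev : V → ℕ), ∃ D : Om → Set V, ∀ S : Set V, Full row lev S →
    ∃ ν, Rich row lev D ν ∧ D ν ⊆ S

/-- The ordinal `ω₁ ^ (ω + 2)`. -/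
noncomputable def Al : Ordinal.{0} := (ℵ₁ : Cardinal.{0}).ord ^ ((ω : Ordinal.{0}) + 2)

def S_card : Prop := ∃ code : Al.ToType → Om, Function.Injective code

/-- Ordinal arithmetic: a set with few levels has small order type. -/
def S_small : Prop := ∀ (w : Ordinal.{0}), w = (ℵ₁ : Cardinal.{0}).ord →
  ∀ (S : Set Ordinal.{0}) (ζ : Ordinal.{0}) (m : Ordinal.{0} → ℕ), ζ < w →
    (∀ x ∈ S, x < w ^ ((ω : Ordinal.{0}) + 2)) →
    (∀ x ∈ S, ζ ≤ x / w ^ ((ω : Ordinal.{0}) + 1) →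
      x % w ^ (ω : Ordinal.{0}) < w ^ ((m (x / w ^ ((ω : Ordinal.{0}) + 1)) : ℕ) : Ordinal.{0})) →
    ∃ f : Ordinal.{0} → Ordinal.{0}, StrictMonoOn f S ∧
      ∀ x ∈ S, f x < w ^ ((ω : Ordinal.{0}) + 1) * (ζ + 1)

/-- Rows and levels for `Al`. -/
def S_ord : Prop := ∃ (row : Al.ToType → Om) (lev : Al.ToType → ℕ),
  (∀ ξ m, ∃ x, row x = ξ ∧ m ≤ lev x) ∧
  ∀ S : Set Al.ToType, Nonempty (S ≃o Al.ToType) → Full row lev S

end Pool.Agent.W910.IP
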