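import Pool.Agent.W910.IP.Stmts

/-! The main recursion. -/

set_option autoImplicit false

open Cardinal Ordinal Set

namespace Pool.Agent.W910.IP.T_IP1

open Pool.Agent.W910.IP

section

variable {Ω V : Type} [LinearOrder Ω] [WellFoundedLT Ω] (row : V → Ω) (lev : V → ℕ)
  (D : Ω → Set V) (e : Ω → Ω → ℕ)

/-- a good parent -/
def Q (ξ : Ω) (j : ℕ) (y : V) (R : Set V) : Prop :=
  row y < ξ ∧ j < lev y ∧ ∀ ε ≤ ξ, Rich row lev D ε → e ξ ε ≤ j → y ∈ D ε ∨ ∃ z ∈ R, z ∈ D ε

open Classical in
/-- the recursion step -/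
noncomputable def step (ξ : Ω) (rec : ∀ ξ' < ξ, ℕ → Set V) (j : ℕ) : Set V :=
  if h : ∃ y, ∃ hy : row y < ξ, Q row lev D e ξ j y (rec (row y) hy (lev y)) then
    insert h.choose (rec (row h.choose) h.choose_spec.choose (lev h.choose))
  else ∅

/-- the ancestors -/
noncomputable def A : Ω → ℕ → Set V :=
  (wellFounded_lt (α := Ω)).fix (step row lev D e)

theorem A_eq (ξ : Ω) (j : ℕ) :
    (A row lev D e ξ j = ∅ ∧ ¬ ∃ y, Q row lev D e ξ j y (A row lev D e (row y) (lev y))) ∨
    ∃ y, Q row lev D e ξ j y (A row lev D e (row y) (lev y)) ∧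
      A row lev D e ξ j = insert y (A row lev D e (row y) (lev y)) := by
  have h0 : A row lev D e ξ = step row lev D e ξ (fun ξ' _ => A row lev D e ξ') :=
    (wellFounded_lt (α := Ω)).fix_eq _ ξ
  rw [h0]
  unfold step
  by_cases h : ∃ y, ∃ _ : row y < ξ, Q row lev D e ξ j y (A row lev D e (row y) (lev y))
  · right
    refine ⟨h.choose, h.choose_spec.choose_spec, ?_⟩
    rw [dif_pos h]
  · left
    refine ⟨?_, ?_⟩
    · rw [dif_neg h]
    · rintro ⟨y, hy⟩
      exact h ⟨y, hy.1, hy⟩

end

theorem main : S_rec := by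
  classical
  intro Ω V _ _ hc row lev hne D
  have he : ∀ ξ : Ω, ∃ e : Ω → ℕ, InjOn e (Iic ξ) := fun ξ => Set.countable_iff_exists_injOn.1 (hc ξ)
  choose e he using he
  refine ⟨A row lev D e, ?_, ?_, ?_, ?_⟩
  · intro ξ
    induction ξ using (wellFounded_lt (α := Ω)).induction with
    | _ ξ ih =>
      intro j z hz
      rcases A_eq row lev D e ξ j with ⟨h, -⟩ | ⟨y, hy, h⟩
      · rw [h] at hz; exact absurd hz (notMem_empty z)
      · rw [h] at hz
        rcases hz with rfl | hz
        · exact ⟨hy.1, hy.2.1⟩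
        · obtain ⟨h1, h2⟩ := ih (row y) hy.1 (lev y) z hz
          exact ⟨h1.trans hy.1, hy.2.1.trans h2⟩
  · intro ξ
    induction ξ using (wellFounded_lt (α := Ω)).induction with
    | _ ξ ih =>
      intro j z hz
      rcases A_eq row lev D e ξ j with ⟨h, -⟩ | ⟨y, hy, h⟩
      · rw [h] at hz; exact absurd hz (notMem_empty z)
      · rw [h] at hz ⊢
        rcases hz with rfl | hz
        · exact subset_insert _ _
        · exact (ih (row y) hy.1 (lev y) z hz).trans (subset_insert _ _)
  · intro ξ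
    induction ξ using (wellFounded_lt (α := Ω)).induction with
    | _ ξ ih =>
      intro j z hz z' hz'
      rcases A_eq row lev D e ξ j with ⟨h, -⟩ | ⟨y, hy, h⟩
      · rw [h] at hz; exact absurd hz (notMem_empty z)
      · rw [h] at hz hz'
        rcases hz with rfl | hz
        · rcases hz' with rfl | hz'
          · exact Or.inl rfl
          · exact Or.inr (Or.inr hz')
        · rcases hz' with rfl | hz'
          · exact Or.inr (Or.inl hz)
          · exact ih (row y) hy.1 (lev y) z hz z' hz'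
  · intro ν hν ξ
    -- strong induction, for all rich points below
    have key : ∀ ξ : Ω, ∀ ν ≤ ξ, Rich row lev D ν →
        ∃ J, ∀ j, J ≤ j → ∃ z ∈ A row lev D e ξ j, z ∈ D ν := by
      intro ξ
      induction ξ using (wellFounded_lt (α := Ω)).induction with
      | _ ξ ih =>
        intro ν hνξ hν
        -- solutions exist
        have hsol : ∀ j, ∃ y, Q row lev D e ξ j y (A row lev D e (row y) (lev y)) := by
          intro j
          obtain ⟨b, hb⟩ : ∃ b, b < ξ := by
            obtain ⟨b, hb⟩ := hν.1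
            exact ⟨b, hb.trans_le hνξ⟩
          have hfin : {ε | ε ≤ ξ ∧ e ξ ε ≤ j}.Finite := by
            apply Finite.of_finite_image (f := e ξ)
            · exact (finite_Iic j).subset (by rintro _ ⟨ε, hε, rfl⟩; exact hε.2)
            · exact (he ξ).mono (fun ε hε => hε.1)
          have hfin' : {ε | ε < ξ ∧ Rich row lev D ε ∧ e ξ ε ≤ j}.Finite :=
            hfin.subset (fun ε hε => ⟨hε.1.le, hε.2.2⟩)
          obtain ⟨ε0, hε0, hub⟩ : ∃ ε0 < ξ, ∀ ε ∈ {ε | ε < ξ ∧ Rich row lev D ε ∧ e ξ ε ≤ j},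
              ε ≤ ε0 := by
            have hfb : (insert b {ε | ε < ξ ∧ Rich row lev D ε ∧ e ξ ε ≤ j}).Finite :=
              hfin'.insert b
            obtain ⟨m, hm, hmax⟩ := hfb.exists_maximalFor id _ ⟨b, mem_insert _ _⟩
            refine ⟨m, ?_, ?_⟩
            · rcases hm with rfl | hm
              · exact hb
              · exact hm.1
            · intro ε hε
              rcases le_total ε m with h | h
              · exact h
              · exact hmax (mem_insert_of_mem _ hε) h
          -- the row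
          obtain ⟨ξ', hξ', hεξ', hrow⟩ : ∃ ξ', ξ' < ξ ∧ ε0 ≤ ξ' ∧
              ((Rich row lev D ξ ∧ ∀ m, ∃ x ∈ D ξ, row x = ξ' ∧ m ≤ lev x) ∨
                ¬ Rich row lev D ξ) := by
            by_cases hr : Rich row lev D ξ
            · obtain ⟨ξ', h1, h2, h3⟩ := hr.2 ε0 hε0
              exact ⟨ξ', h2, h1, Or.inl ⟨hr, h3⟩⟩
            · exact ⟨ε0, hε0, le_rfl, Or.inr hr⟩
          -- the bound
          obtain ⟨m, hm⟩ : ∃ m, ∀ ε ∈ {ε | ε < ξ ∧ Rich row lev D ε ∧ e ξ ε ≤ j},
              ∀ k, m ≤ k → ∃ z ∈ A row lev D e ξ' k, z ∈ D ε := by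
            have hJ : ∀ ε, ∃ J, ε ∈ {ε | ε < ξ ∧ Rich row lev D ε ∧ e ξ ε ≤ j} →
                ∀ k, J ≤ k → ∃ z ∈ A row lev D e ξ' k, z ∈ D ε := by
              intro ε
              by_cases hε : ε ∈ {ε | ε < ξ ∧ Rich row lev D ε ∧ e ξ ε ≤ j}
              · obtain ⟨J, hJ⟩ := ih ξ' hξ' ε ((hub ε hε).trans hεξ') hε.2.1
                exact ⟨J, fun _ => hJ⟩
              · exact ⟨0, fun h => absurd h hε⟩
            choose J hJ using hJ
            refine ⟨hfin'.toFinset.sup J, fun ε hε k hk => hJ ε hε k (le_trans ?_ hk)⟩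
            exact Finset.le_sup (f := J) (hfin'.mem_toFinset.2 hε)
          have hmain : ∀ y, row y = ξ' → max m (j + 1) ≤ lev y →
              (Rich row lev D ξ → y ∈ D ξ) →
              Q row lev D e ξ j y (A row lev D e (row y) (lev y)) := by
            intro y hy1 hy2 hy3
            refine ⟨by rw [hy1]; exact hξ', lt_of_lt_of_le (Nat.lt_succ_self j)
              ((le_max_right _ _).trans hy2), ?_⟩
            intro ε hε hR hej
            rcases hε.lt_or_eq with h | h
            · right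
              have := hm ε ⟨h, hR, hej⟩ (lev y) ((le_max_left _ _).trans hy2)
              rw [hy1]
              exact this
            · left
              rw [h] at hR ⊢
              exact hy3 hR
          rcases hrow with ⟨hr, h3⟩ | hr
          · obtain ⟨y, hyD, hy1, hy2⟩ := h3 (max m (j + 1))
            exact ⟨y, hmain y hy1 hy2 (fun _ => hyD)⟩
          · obtain ⟨y, hy1, hy2⟩ := hne ξ' (max m (j + 1))
            exact ⟨y, hmain y hy1 hy2 (fun h => absurd h hr)⟩
        refine ⟨e ξ ν, fun j hj => ?_⟩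
        rcases A_eq row lev D e ξ j with ⟨-, h⟩ | ⟨y, hy, h⟩
        · exact absurd (hsol j) h
        · rw [h]
          rcases hy.2.2 ν hνξ hν hj with h1 | ⟨z, hz, hzD⟩
          · exact ⟨y, mem_insert _ _, h1⟩
          · exact ⟨z, mem_insert_of_mem _ hz, hzD⟩
    exact fun h => key ξ ν h hν

end Pool.Agent.W910.IP.T_IP1
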